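import Pool.Agent.CorE.Main

/-!
# MP_a13da1_ag: the correspondence degree with an elliptic curve

`k` is an algebraically closed field of characteristic zero, `E` an elliptic curve over `k` (any Weierstrass
equation), `E.toAffine.FunctionField` its function field (Mathlib), `L` the function field of an arbitrary curve
`X` over `k`. Nonconstant morphisms `X → E` are the homomorphisms `φ` of the function fields over `k`, the degree of
the morphism is `finrank φ.fieldRange L`. The correspondence degree `corrDeg` and the gonality `gon` are defined in
`Pool/Agent/CorD/Defs.lean`.

(1) `corr.deg (X, E)` is the minimum of the degrees of the nonconstant morphisms `X → E` and of `2 gon X`.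

(2) The graph of `f : X → E` computes `corr.deg (X, E)` if and only if `f` has the least degree among the nonconstant
morphisms `X → E` and this degree is at most `2 gon X`.

(3) Curves `Y` over `E`: if the composition of `f : X → Y` and `p : Y → E` has the least degree among the nonconstant
morphisms `X → E` and this degree is at most `2 gon X`, then the graph of `f` computes `corr.deg (X, Y)`.
-/

open Pool.Agent.CorD Pool.Agent.CorE Pool.Agent.EllHiggs Module

namespace Pool.Agent.Results.MP_a13da1_ag.EllipticTarget

theorem result (k : Type) [Field k] [IsAlgClosed k] [CharZero k] (E : WeierstrassCurve k)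
    [E.IsElliptic] (L : Type) [Field L] [Algebra k L] (hL : IsFunField k L) :
    corrDeg k L E.toAffine.FunctionField =
        sInf ({n | ∃ φ : E.toAffine.FunctionField →ₐ[k] L, finrank φ.fieldRange L = n} ∪
          {2 * gon k L}) ∧
      (∀ f : E.toAffine.FunctionField →ₐ[k] L,
        corrDeg k L E.toAffine.FunctionField = finrank f.fieldRange L ↔
          (∀ φ : E.toAffine.FunctionField →ₐ[k] L,
            finrank f.fieldRange L ≤ finrank φ.fieldRange L) ∧
            finrank f.fieldRange L ≤ 2 * gon k L) ∧
      ∀ (B : Type) [Field B] [Algebra k B], IsFunField k B →
        ∀ (p : E.toAffine.FunctionField →ₐ[k] B) (f : B →ₐ[k] L),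
          (∀ φ : E.toAffine.FunctionField →ₐ[k] L,
            finrank (f.comp p).fieldRange L ≤ finrank φ.fieldRange L) →
          finrank (f.comp p).fieldRange L ≤ 2 * gon k L →
            corrDeg k L B = finrank f.fieldRange L :=
  ⟨formula (E := E.toAffine) hL, graph_iff (E := E.toAffine) hL,
    fun _ _ _ hB p f h1 h2 => cover (E := E.toAffine) hL hB p f h1 h2⟩

end Pool.Agent.Results.MP_a13da1_ag.EllipticTarget
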