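import Pool.Agent.CorF.Twn

/-!
# MP_a13da1_ag: unramified towers and the correspondence degree

`k` is an algebraically closed field of characteristic zero; curves are given by their function fields. `K` is the function field of
a curve `Y`, `θ : K → K₁` is a covering `Y₁ → Y` of degree `m`, unramified at every point, and `η : Z → K₁` a covering of degree `e`
of a third curve `T` by `Y₁`. `N` is a prime, and `T` is as in `TowerBase k Z N F`: of gonality two (hyperelliptic or elliptic;
`N = F = 2`), or a curve `y ^ N = p (x)` such that `p` has at least three simple roots (four if `N = 2`; `F` is the degree of `x`),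
or a curve with a function of degree at most `F` and a finite set of values over which all multiplicities are divisible by `N`: at
least four values, or at least three if `N ≥ 3`.

Then for every `n` there is a covering `W → Y` (`φ : K → W`) of degree `m N ^ n`, unramified at every point (`ram φ w v = 1` for
every place `w` of `W` over `v`), with `gon Y ≤ gon W ≤ e F`. For every covering `X → W` (`ψ : W → L`) the composite covering
`X → Y` has degree `m N ^ n deg (X / W)`, and `corr.deg (X, Y) ≤ e F gon (Y) deg (X / W)`; so for `e F gon (Y) < m N ^ n` the graph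
of `X → Y` does not compute `corr.deg (X, Y)`.

Definitions: `Pool/Agent/CorD/Defs.lean`, `Pool/Agent/CorF/Defs.lean`; `DivVal`, `DivFib`, `TowerBase` in
`Pool/Agent/CorF/Twn.lean`.
-/

open Pool.Agent.CorD Pool.Agent.CorF Pool.Agent.EllHiggs Module

namespace Pool.Agent.Results.MP_a13da1_ag.HyperellipticTowers

theorem result (k : Type) [Field k] [IsAlgClosed k] [CharZero k]
    (K : Type) [Field K] [Algebra k K] (hK : IsFunField k K)
    (K₁ : Type) [Field K₁] [Algebra k K₁] (hK₁ : IsFunField k K₁)
    (θ : K →ₐ[k] K₁) (hθ : FiniteDimensional θ.fieldRange K₁)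
    (hu : ∀ (w : Place k K₁) (v : Place k K), Ov θ w v → ram θ w v = 1)
    (Z : Type) [Field Z] [Algebra k Z] (hZ : IsFunField k Z)
    (η : Z →ₐ[k] K₁) (hη : FiniteDimensional η.fieldRange K₁)
    (N F : ℕ) (hN : N.Prime) (h : TowerBase k Z N F) (n : ℕ) :
    ∃ (W : Type) (_ : Field W) (_ : Algebra k W) (φ : K →ₐ[k] W), IsFunField k W ∧
      gon k K ≤ gon k W ∧ gon k W ≤ finrank η.fieldRange K₁ * F ∧
        FiniteDimensional φ.fieldRange W ∧
        finrank φ.fieldRange W = finrank θ.fieldRange K₁ * N ^ n ∧
        (∀ (w : Place k W) (v : Place k K), Ov φ w v → ram φ w v = 1) ∧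
          ∀ (L : Type) [Field L] [Algebra k L] (ψ : W →ₐ[k] L),
            FiniteDimensional ψ.fieldRange L →
              finrank (ψ.comp φ).fieldRange L =
                  finrank θ.fieldRange K₁ * N ^ n * finrank ψ.fieldRange L ∧
                corrDeg k L K ≤ finrank η.fieldRange K₁ * F * gon k K * finrank ψ.fieldRange L ∧
                  (finrank η.fieldRange K₁ * F * gon k K < finrank θ.fieldRange K₁ * N ^ n →
                    corrDeg k L K < finrank (ψ.comp φ).fieldRange L) :=
  div_main hK hK₁ hZ θ hθ hu η hη hN h n

end Pool.Agent.Results.MP_a13da1_ag.HyperellipticTowers
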