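import Pool.Agent.CorD.Fin

/-!
# MP_a13da1_ag: the correspondence degree of coverings of large genus

Curves over an algebraically closed field `k` of characteristic zero are given by their function
fields, `K = k(Y)` and `L = k(X)`, and a covering `X → Y` of degree `d` by a field extension `L` of
`K` of degree `d`. The degree of a nonconstant function `y` is `fdeg k y`, `gon k K` is the gonality
of `Y`, `IsGenus k K γ` says that `γ` is the genus of `Y` (Riemann: the maximum of
`deg D + 1 - l(D)`), `corrDeg k L K` is the correspondence degree of `X` and `Y`. `Big k K L γ n` says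
that every curve `W ≠ Y` between `X` and `Y` has genus larger than `δ γ + (δ - 1) (⌊n δ / d⌋ - 1)`,
where `δ = deg (W/Y)`, `d = deg (X/Y)`. The definitions are in `Pool/Agent/CorD/Defs.lean`.

(1) For every degree `d` there is `G` such that every covering `X → Y` of degree `d`, of any genus,
has an intermediate curve `X → W → Y` of genus at most `G` with
`corr.deg (X, Y) = deg (X/W) * corr.deg (W, Y)`.

(2) If all curves `W ≠ Y` between `X` and `Y` have large genus (explicitly), then all correspondences
between `X` and `Y` have degree at least `d` over `Y`, and `corr.deg (X, Y) = d`: the graph of the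
covering computes the correspondence degree.

(3) `corr.deg (X, Y) ≤ deg (X/W) * gon W * gon Y` for all intermediate curves `W`: the hypothesis
in (2) cannot be omitted.
-/

open Pool.Agent.CorD Pool.Agent.EllHiggs Module

namespace Pool.Agent.Results.MP_a13da1_ag.LargeGenus

theorem result (k K : Type) [Field k] [IsAlgClosed k] [CharZero k] [Field K] [Algebra k K]
    (hK : IsFunField k K) :
    (∀ d : ℕ, ∃ G : ℕ, ∀ (L : Type) [Field L] [Algebra k L] [Algebra K L] [IsScalarTower k K L]
      [FiniteDimensional K L], finrank K L = d → ∃ W : IntermediateField K L,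
        (∃ g ≤ G, IsGenus k W g) ∧ corrDeg k L K = finrank W L * corrDeg k W K) ∧
      ∀ (L : Type) [Field L] [Algebra k L] [Algebra K L] [IsScalarTower k K L]
        [FiniteDimensional K L],
        (∀ γ : ℕ, IsGenus k K γ → Big k K L γ ((finrank K L - 1) * gon k K) →
          corrDeg k L K = finrank K L ∧ ∀ Z : Corr k L K, finrank K L ≤ Z.b) ∧
        ∀ W : IntermediateField K L, corrDeg k L K ≤ finrank W L * (gon k W * gon k K) := by
  refine ⟨bounded k K hK, ?_⟩
  intro L _ _ _ _ _
  refine ⟨fun γ hγ hB => ⟨?_, ?_⟩, le_gon hK⟩
  · exact eq_of_surj (W := K) hK hγ Function.surjective_id hB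
  · exact b_ge (W := K) hK hγ Function.surjective_id hB

end Pool.Agent.Results.MP_a13da1_ag.LargeGenus
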