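import Pool.Agent.CorF.Main
import Pool.Agent.CorF.Gph

/-!
# MP_a13da1_ag: the correspondence degree and the theta degree

`k` is an algebraically closed field of characteristic zero, `L`, `K` are the function fields of curves `X`, `Y`
over `k`, `γ ≥ 1` is the genus of `Y`. A correspondence `Z : Corr k L K` (`Pool/Agent/CorD/Defs.lean`) has degree `Z.a`
over `X` and `Z.b` over `Y`. For a point `x` of `X` the divisor `a_x = b_* a^* x` of `Y` is `fbr Z.s Z.t x`, for a point `y` of
`Y` the divisor `b_y = a_* b^* y` of `X` is `fbr Z.t Z.s y`. `Cst Z.s Z.t`: all `a_x` are linearly equivalent. `Theta Z.s Z.t γ n`: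
the theta degree of `x ↦ a_x` is at least `n` (all in `Pool/Agent/CorF/Defs.lean`).

(1) If the theta degree of `Z` is at least `n` then `n ≤ q (p + γ - 1)`, where `p = Z.a`, `q = Z.b`.

(2) If all `a_x` are linearly equivalent and all `b_y` are linearly equivalent then `gon X * gon Y ≤ p q`.

(3) The graph of a covering `f : X → Y` (given by `f : K → L`) has theta degree at least `γ deg f` (exactly, by (1)).

(4) If all correspondences which are not as in (2) have theta degree at least `n` then
`gon X * gon Y ≤ corr.deg (X, Y)` or `n ≤ γ corr.deg (X, Y)`.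

(5) If all correspondences which are not as in (2) have theta degree at least `γ deg f` then
`corr.deg (X, Y) = min (deg f, gon X * gon Y)`, and if moreover `γ ≥ 2` and `deg f < gon X * gon Y` then every
correspondence which computes `corr.deg (X, Y)` has degree one over `X` and degree `deg f` over `Y`.
-/

open Pool.Agent.CorD Pool.Agent.CorF Pool.Agent.EllHiggs Module

namespace Pool.Agent.Results.MP_a13da1_ag.ThetaDegree

theorem result (k : Type) [Field k] [IsAlgClosed k] [CharZero k] (L K : Type) [Field L] [Field K]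
    [Algebra k L] [Algebra k K] (hL : IsFunField k L) (hK : IsFunField k K) (γ : ℕ)
    (hγ : IsGenus k K γ) (h1 : 1 ≤ γ) :
    (∀ (Z : Corr k L K) (n : ℕ), Theta Z.s Z.t γ n → n ≤ Z.b * (Z.a + γ - 1)) ∧
      (∀ Z : Corr k L K, Cst Z.s Z.t → Cst Z.t Z.s → gon k L * gon k K ≤ Z.a * Z.b) ∧
      (∀ f : K →ₐ[k] L, FiniteDimensional f.fieldRange L →
        Theta (AlgHom.id k L) f γ (γ * finrank f.fieldRange L)) ∧
      (∀ n : ℕ, (∀ Z : Corr k L K, (Cst Z.s Z.t ∧ Cst Z.t Z.s) ∨ Theta Z.s Z.t γ n) →
        gon k L * gon k K ≤ corrDeg k L K ∨ n ≤ γ * corrDeg k L K) ∧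
      ∀ f : K →ₐ[k] L, FiniteDimensional f.fieldRange L →
        (∀ Z : Corr k L K, (Cst Z.s Z.t ∧ Cst Z.t Z.s) ∨
          Theta Z.s Z.t γ (γ * finrank f.fieldRange L)) →
        corrDeg k L K = min (finrank f.fieldRange L) (gon k L * gon k K) ∧
          (2 ≤ γ → finrank f.fieldRange L < gon k L * gon k K → ∀ Z : Corr k L K,
            Z.a * Z.b = corrDeg k L K → Z.a = 1 ∧ Z.b = finrank f.fieldRange L) :=
  ⟨fun Z _ h => star hL hK Z.s Z.t hγ h, fun Z h h' => const_gon hL hK Z h h',
    fun f _ => gth hL hK hγ f, fun _ h => lowdeg hL hK hγ h1 h,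
    fun f _ h => least hL hK hγ h1 f h⟩

end Pool.Agent.Results.MP_a13da1_ag.ThetaDegree
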